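import Pool.Agent.EGF.Stmts

/-! Squad EGF, row DRC (helper81): dependent random choice. -/

set_option autoImplicit false

open Finset

namespace Pool.Agent.EGF.H81

open Pool.Agent.EGF

/-- a nonempty set with at most `s` elements is the image of a function on `Fin s` -/
theorem exists_fun {X : Type} {S : Finset X} {s : ℕ} (hS : S.Nonempty) (hs : S.card ≤ s) :
    ∃ w : Fin s → X, (∀ i, w i ∈ S) ∧ ∀ x ∈ S, ∃ i, w i = x := by
  obtain ⟨x0, hx0⟩ := hS
  refine ⟨fun i => if h : (i : ℕ) < S.card then (S.equivFin.symm ⟨i, h⟩ : S) else x0, ?_, ?_⟩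
  · intro i
    by_cases h : (i : ℕ) < S.card
    · simp only [h, dif_pos]
      exact (S.equivFin.symm ⟨i, h⟩).2
    · simp only [h, dif_neg, not_false_eq_true]
      exact hx0
  · intro x hx
    have h1 := (S.equivFin ⟨x, hx⟩).2
    refine ⟨⟨S.equivFin ⟨x, hx⟩, h1.trans_le hs⟩, ?_⟩
    simp only [h1, dif_pos]
    simp

theorem drc : DrcStmt := by
  intro X Y _ _ A B N δ η s τ hδ hη hs hB hN
  classical
  obtain ⟨T, hT⟩ : ∃ T : Finset (Fin τ → Y), T = Fintype.piFinset fun _ : Fin τ => B := ⟨_, rfl⟩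
  have hTc : T.card = B.card ^ τ := by
    rw [hT, Fintype.card_piFinset]
    simp
  have hTn : T.Nonempty := by
    rw [hT, Fintype.piFinset_nonempty]
    exact fun _ => hB
  obtain ⟨W, hW⟩ : ∃ W : Finset (Fin s → X), W = Fintype.piFinset fun _ : Fin s => A := ⟨_, rfl⟩
  have hWc : W.card = A.card ^ s := by
    rw [hW, Fintype.card_piFinset]
    simp
  obtain ⟨com, hcom⟩ : ∃ com : (Fin s → X) → Finset Y,
    com = fun w => B.filter fun y => ∀ i, y ∈ N (w i) := ⟨_, rfl⟩
  obtain ⟨bad, hbad⟩ : ∃ bad : Finset (Fin s → X),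
    bad = W.filter fun w => ((com w).card : ℝ) < η * B.card := ⟨_, rfl⟩
  obtain ⟨Av, hAv⟩ : ∃ Av : (Fin τ → Y) → Finset X,
    Av = fun v => A.filter fun x => ∀ l, v l ∈ N x := ⟨_, rfl⟩
  obtain ⟨bv, hbv⟩ : ∃ bv : (Fin τ → Y) → Finset (Fin s → X),
    bv = fun v => bad.filter fun w => ∀ l, v l ∈ com w := ⟨_, rfl⟩
  -- first sum
  have h1 : (A.card : ℝ) * (δ * B.card) ^ τ ≤ ∑ v ∈ T, ((Av v).card : ℝ) := by
    have e1 : ∑ v ∈ T, (Av v).card = ∑ x ∈ A, (T.filter fun v => ∀ l, v l ∈ N x).card := by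
      simp only [hAv, card_filter]
      exact sum_comm
    have e2 : ∀ x, (T.filter fun v => ∀ l, v l ∈ N x) =
        Fintype.piFinset fun _ : Fin τ => N x ∩ B := by
      intro x
      ext v
      simp only [hT, mem_filter, Fintype.mem_piFinset, mem_inter]
      exact ⟨fun h l => ⟨h.2 l, h.1 l⟩, fun h => ⟨fun l => (h l).2, fun l => (h l).1⟩⟩
    have e3 : ∑ v ∈ T, ((Av v).card : ℝ) = ∑ x ∈ A, ((N x ∩ B).card : ℝ) ^ τ := by
      rw [← Nat.cast_sum, e1, Nat.cast_sum]
      refine sum_congr rfl fun x _ => ?_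
      rw [e2, Fintype.card_piFinset]
      simp
    rw [e3, ← nsmul_eq_mul, ← sum_const]
    exact sum_le_sum fun x hx => pow_le_pow_left₀ (by positivity) (hN x hx) τ
  -- second sum
  have h2 : ∑ v ∈ T, ((bv v).card : ℝ) ≤ (A.card : ℝ) ^ s * (η * B.card) ^ τ := by
    have e1 : ∑ v ∈ T, (bv v).card = ∑ w ∈ bad, (T.filter fun v => ∀ l, v l ∈ com w).card := by
      simp only [hbv, card_filter]
      exact sum_comm
    have e2 : ∀ w, (T.filter fun v => ∀ l, v l ∈ com w) =
        Fintype.piFinset fun _ : Fin τ => com w := by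
      intro w
      ext v
      simp only [hT, mem_filter, Fintype.mem_piFinset]
      refine ⟨fun h => h.2, fun h => ⟨fun l => ?_, h⟩⟩
      have h3 := h l
      rw [hcom] at h3
      exact (mem_filter.1 h3).1
    have e3 : ∑ v ∈ T, ((bv v).card : ℝ) = ∑ w ∈ bad, ((com w).card : ℝ) ^ τ := by
      rw [← Nat.cast_sum, e1, Nat.cast_sum]
      refine sum_congr rfl fun w _ => ?_
      rw [e2, Fintype.card_piFinset]
      simp
    rw [e3]
    calc ∑ w ∈ bad, ((com w).card : ℝ) ^ τ ≤ ∑ w ∈ bad, (η * B.card) ^ τ :=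
          sum_le_sum fun w hw => pow_le_pow_left₀ (by positivity)
            (by rw [hbad] at hw; exact (mem_filter.1 hw).2.le) τ
      _ = (bad.card : ℝ) * (η * B.card) ^ τ := by rw [sum_const, nsmul_eq_mul]
      _ ≤ (A.card : ℝ) ^ s * (η * B.card) ^ τ := by
          have h3 : bad.card ≤ A.card ^ s := by
            rw [← hWc, hbad]
            exact card_filter_le _ _
          have h4 : (bad.card : ℝ) ≤ (A.card : ℝ) ^ s := by exact_mod_cast h3
          exact mul_le_mul_of_nonneg_right h4 (by positivity)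
  -- the choice of `v`
  obtain ⟨v, hv, hvle⟩ : ∃ v ∈ T, δ ^ τ * A.card - (A.card : ℝ) ^ s * η ^ τ ≤
      ((Av v).card : ℝ) - (bv v).card := by
    refine exists_le_of_sum_le hTn ?_
    rw [sum_const, nsmul_eq_mul, hTc, sum_sub_distrib]
    rw [mul_pow] at h1 h2
    push_cast
    have e : (B.card : ℝ) ^ τ * (δ ^ τ * A.card - (A.card : ℝ) ^ s * η ^ τ) =
        (A.card : ℝ) * (δ ^ τ * (B.card : ℝ) ^ τ) -
          (A.card : ℝ) ^ s * (η ^ τ * (B.card : ℝ) ^ τ) := by ring
    rw [e]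
    linarith only [h1, h2]
  refine ⟨Av v \ (bv v).image fun w => w ⟨0, hs⟩, ?_, ?_, ?_⟩
  · refine sdiff_subset.trans ?_
    rw [hAv]
    exact filter_subset _ _
  · have h3 : (Av v).card ≤ (Av v \ (bv v).image fun w => w ⟨0, hs⟩).card + (bv v).card := by
      have h4 := le_card_sdiff ((bv v).image fun w => w ⟨0, hs⟩) (Av v)
      have h5 : ((bv v).image fun w => w ⟨0, hs⟩).card ≤ (bv v).card := card_image_le
      omega
    have h4 : ((Av v).card : ℝ) ≤
        ((Av v \ (bv v).image fun w => w ⟨0, hs⟩).card : ℝ) + (bv v).card := by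
      exact_mod_cast h3
    linarith only [h4, hvle]
  · intro S hS hSn hSs
    obtain ⟨w, hw1, hw2⟩ := exists_fun hSn hSs
    have hSA : ∀ x ∈ S, x ∈ A ∧ ∀ l, v l ∈ N x := by
      intro x hx
      have h3 := (mem_sdiff.1 (hS hx)).1
      rw [hAv] at h3
      exact mem_filter.1 h3
    have hce : (B.filter fun y => ∀ x ∈ S, y ∈ N x) = com w := by
      rw [hcom]
      ext y
      simp only [mem_filter]
      refine and_congr_right fun _ => ⟨fun h i => h _ (hw1 i), fun h x hx => ?_⟩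
      obtain ⟨i, rfl⟩ := hw2 x hx
      exact h i
    rw [hce]
    by_contra hcon
    push Not at hcon
    have h5 : w ∈ bv v := by
      rw [hbv, mem_filter, hbad, mem_filter, hW, Fintype.mem_piFinset]
      refine ⟨⟨fun i => (hSA _ (hw1 i)).1, hcon⟩, fun l => ?_⟩
      rw [hcom, mem_filter]
      rw [hT, Fintype.mem_piFinset] at hv
      exact ⟨hv l, fun i => (hSA _ (hw1 i)).2 l⟩
    exact (mem_sdiff.1 (hS (hw1 ⟨0, hs⟩))).2 (mem_image.2 ⟨w, h5, rfl⟩)

end Pool.Agent.EGF.H81
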